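import Pool.Agent.H98.AM.Final
import Pool.Agent.H98.AM.Bridge

/-!
# The critical almost Mathieu operator at Cahen's constant (`MP_29bb0a_mp`, Q2)

The upper box-counting dimension of `Sp₊(C, 1)`, `C` Cahen's constant, is smaller than `2/3`.
The definitions (the almost Mathieu operator on `ℓ²(ℤ)`, `Sp₊`, `N_δ`, the upper box dimension,
Sylvester's sequence, Cahen's constant) are in `Pool/Agent/H98/AM/Spec.lean`.
-/

set_option autoImplicit false

namespace Pool.Agent.Results.MP_29bb0a_mp.UpperDimCahen

open Pool.Agent.H98.AM.Spec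

/-- The upper box-counting dimension of the critical almost Mathieu spectrum at Cahen's constant
is smaller than `2/3`. -/
theorem result : upperBoxDim (SpPlus cahen 1) < ((2 / 3 : ℝ) : EReal) := by
  rw [Pool.Agent.H98.AM.SpPlus_bridge, Pool.Agent.H98.AM.cahen_bridge,
    Pool.Agent.H98.AM.upperBoxDim_bridge]
  exact Pool.Agent.H98.AM.main

end Pool.Agent.Results.MP_29bb0a_mp.UpperDimCahen
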